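import Pool.Agent.helper34.AC.Spec2

/-! ac: MAIN: the main inequality. -/

set_option autoImplicit false

namespace Pool.Agent.helper34.AC

theorem MAIN_mono (hWEX : WEX_stmt) : Monotone (fun k : ℕ => W (k : ℝ)) := by
  intro i j hij
  exact hWEX.2.2.1 _ _ (Nat.cast_nonneg _) (by exact_mod_cast hij)

theorem MAIN_om (hWEX : WEX_stmt) {V : Type} [DecidableEq V] (G : SimpleGraph V)
    (U : Finset V) (ih : ∀ T ⊂ U, psi T.card * N G T ≤ N1 G T) (a : V) (ha : a ∈ U) :
    Om G (U.erase a) (fun k : ℕ => W (k : ℝ)) := by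
  intro T hT
  have h1 : T ⊂ U := lt_of_le_of_lt hT (Finset.erase_ssubset ha)
  have h2 := ih T h1
  obtain ⟨h3, h4⟩ := hWEX.1 (T.card : ℝ) (Nat.cast_nonneg _)
  calc (T.card : ℝ) * N G T = W T.card * (psi T.card * N G T) := by
        unfold psi
        rw [← mul_assoc, h4]
    _ ≤ W T.card * N1 G T := mul_le_mul_of_nonneg_left h2 h3

theorem MAIN_key (hPOS : POS_stmt) (hRCN : RCN_stmt) (hFM2 : FM2_stmt) (hSIZ : SIZ_stmt)
    (hWEX : WEX_stmt) (hST1 : ST1_stmt) {V : Type} [DecidableEq V] (G : SimpleGraph V)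
    (U : Finset V) (ih : ∀ T ⊂ U, psi T.card * N G T ≤ N1 G T) (a b : V) (ha : a ∈ U) (hb : b ∈ U)
    (hab : G.Adj a b) (h : Mk G {a} (U.erase a) 1 ≤ tau ((U.card : ℝ) - 1) * N G U) :
    psi U.card * N G U ≤ N1 G U := by
  classical
  obtain ⟨m, hm⟩ : ∃ m : ℝ, m = (U.card : ℝ) - 1 := ⟨_, rfl⟩
  rw [← hm] at h
  have hN : 0 < N G U := lt_of_lt_of_le one_pos (hPOS V G U).1
  have hcard : 2 ≤ U.card := by
    have h1 : ({a, b} : Finset V) ⊆ U := by
      intro x hx
      rw [Finset.mem_insert, Finset.mem_singleton] at hx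
      rcases hx with rfl | rfl
      · exact ha
      · exact hb
    have h2 := Finset.card_le_card h1
    rwa [Finset.card_pair hab.ne] at h2
  have hm1 : 1 ≤ m := by
    have : (2 : ℝ) ≤ U.card := by exact_mod_cast hcard
    rw [hm]
    linarith
  obtain ⟨R, hR⟩ : ∃ R, R = U.erase a := ⟨_, rfl⟩
  have hRc : (R.card : ℝ) = m := by
    rw [hR, Finset.card_erase_of_mem ha, Nat.cast_sub (by omega), hm]
    simp
  obtain ⟨s, hs⟩ : ∃ s, s = st G {a} R := ⟨_, rfl⟩
  have hsz : ∀ S ∈ s, ((R \ S).card : ℝ) = m - S.card ∧ (S.card : ℝ) ≤ m - 1 ∧ R \ S ⊂ U := by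
    intro S hS
    rw [hs, hR] at hS
    obtain ⟨h1, -, h2⟩ := hSIZ V G U a b ha hb hab S hS
    rw [← hR] at h2
    have h3 : ((R \ S).card : ℝ) + S.card + 1 = U.card := by exact_mod_cast h2
    have h4 : (S.card : ℝ) + 2 ≤ U.card := by exact_mod_cast h1
    refine ⟨by rw [hm]; linarith, by rw [hm]; linarith, ?_⟩
    refine lt_of_le_of_lt Finset.sdiff_subset ?_
    rw [hR]
    exact Finset.erase_ssubset ha
  obtain ⟨r1, -, r3⟩ := hRCN V G U a ha
  rw [← hR] at r1 r3 h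
  rw [← hs] at r3
  have hom := MAIN_om hWEX G U ih a ha
  rw [← hR] at hom
  have f0 := hFM2 V G {a} R _ 1 (MAIN_mono hWEX) hom
  have f1 := hFM2 V G {a} R _ 2 (MAIN_mono hWEX) hom
  rw [hRc] at f0 f1
  obtain ⟨hW0, -⟩ := hWEX.1 m (by linarith)
  have hNn : ∀ S, 0 ≤ N G (R \ S) := fun S => zero_le_one.trans (hPOS V G (R \ S)).1
  -- the moments
  have m0 : ∑ S ∈ s, N G (R \ S) = N G U := by
    rw [r1, Mk, ← hs]
    refine Finset.sum_congr rfl fun S _ => ?_
    simp
  have m1 : ∑ S ∈ s, (S.card : ℝ) * N G (R \ S) = Mk G {a} R 1 := by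
    rw [Mk, ← hs]
    refine Finset.sum_congr rfl fun S _ => ?_
    simp
  have m2 : ∑ S ∈ s, (S.card : ℝ) ^ 2 * N G (R \ S) = Mk G {a} R 2 + Mk G {a} R 1 := by
    rw [Mk, Mk, ← hs, ← Finset.sum_add_distrib]
    refine Finset.sum_congr rfl fun S _ => ?_
    rw [Nat.cast_descFactorial_two]
    simp
    ring
  have m3 : ∑ S ∈ s, (S.card : ℝ) ^ 3 * N G (R \ S) =
      Mk G {a} R 3 + 3 * Mk G {a} R 2 + Mk G {a} R 1 := by
    rw [Mk, Mk, Mk, ← hs, Finset.mul_sum, ← Finset.sum_add_distrib, ← Finset.sum_add_distrib]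
    refine Finset.sum_congr rfl fun S _ => ?_
    have e3 : ((S.card.descFactorial 3 : ℕ) : ℝ) = (S.card : ℝ) * (S.card - 1) * (S.card - 2) := by
      rcases Nat.lt_or_ge S.card 3 with hlt | hge
      · interval_cases S.card <;> norm_num [Nat.descFactorial]
      · obtain ⟨j, hj⟩ := Nat.exists_eq_add_of_le hge
        rw [hj]
        simp only [Nat.descFactorial]
        have k1 : 3 + j - 2 = 1 + j := by omega
        have k2 : 3 + j - 1 = 2 + j := by omega
        have k3 : 3 + j - 0 = 3 + j := by omega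
        rw [k1, k2, k3]
        push_cast
        ring
    rw [e3, Nat.cast_descFactorial_two]
    simp
    ring
  obtain ⟨p, hp⟩ : ∃ p : Finset V → ℝ, p = fun S => N G (R \ S) / N G U := ⟨_, rfl⟩
  have hpsum : ∀ f : Finset V → ℝ, ∑ S ∈ s, p S * f S = (∑ S ∈ s, f S * N G (R \ S)) / N G U := by
    intro f
    rw [Finset.sum_div]
    refine Finset.sum_congr rfl fun S _ => ?_
    rw [hp]
    ring
  have hM1 : 0 ≤ Mk G {a} R 1 := by
    rw [← m1]
    exact Finset.sum_nonneg fun S _ => mul_nonneg (Nat.cast_nonneg _) (hNn S)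
  have key := hST1 (Finset V) s p (fun S => (S.card : ℝ)) m hm1
    (fun S _ => by rw [hp]; exact div_nonneg (hNn S) hN.le)
    (by
      have := hpsum (fun _ => 1)
      simp only [mul_one, one_mul] at this
      rw [this, m0, div_self hN.ne'])
    (fun S hS => ⟨Nat.cast_nonneg _, (hsz S hS).2.1⟩)
    (by
      rw [hpsum, hpsum (fun S => (S.card : ℝ)), m1, m2, ← mul_div_assoc]
      refine div_le_div_of_nonneg_right ?_ hN.le
      linarith)
    (by
      rw [hpsum, hpsum (fun S => (S.card : ℝ)), m1, m3, ← mul_div_assoc]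
      refine div_le_div_of_nonneg_right ?_ hN.le
      have g1 : W m * Mk G {a} R 2 ≤ W m * (W m * Mk G {a} R 1) := mul_le_mul_of_nonneg_left f0 hW0
      nlinarith)
    (by
      rw [hpsum (fun S => (S.card : ℝ)), m1, div_le_iff₀ hN]
      exact h)
  rw [hpsum (fun S => psi (m - S.card))] at key
  have hmc : m + 1 = U.card := by rw [hm]; ring
  rw [hmc] at key
  have k1 : psi U.card * N G U ≤ N G U + ∑ S ∈ s, psi (m - S.card) * N G (R \ S) := by
    have := mul_le_mul_of_nonneg_right key hN.le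
    rw [add_mul, div_mul_cancel₀ _ hN.ne', one_mul] at this
    exact this
  refine k1.trans ?_
  rw [r3]
  refine add_le_add_right (Finset.sum_le_sum fun S hS => ?_) _
  rw [← (hsz S hS).1]
  exact ih _ (hsz S hS).2.2

theorem MAIN (hPOS : POS_stmt) (hRCN : RCN_stmt) (hFM2 : FM2_stmt) (hTWO : TWO_stmt)
    (hSIZ : SIZ_stmt) (hLTW : LTW_stmt) (hWEX : WEX_stmt) (hST1 : ST1_stmt) (hST2 : ST2_stmt)
    (hGPS : GPS_stmt) : MAIN_stmt := by
  classical
  intro V _ G U
  induction U using Finset.strongInduction with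
  | H U ih =>
  have hN : 0 < N G U := lt_of_lt_of_le one_pos (hPOS V G U).1
  by_cases hst : Stab G U
  · rw [hLTW.2.2 V G U hst]
    exact mul_le_mul_of_nonneg_right (hGPS U.card) hN.le
  have hex : ∃ v ∈ U, ∃ w ∈ U, G.Adj v w := by
    unfold Stab at hst
    push Not at hst
    exact hst
  obtain ⟨v, hv, w, hw, hvw⟩ := hex
  by_cases h : Mk G {v} (U.erase v) 1 ≤ tau ((U.card : ℝ) - 1) * N G U
  · exact MAIN_key hPOS hRCN hFM2 hSIZ hWEX hST1 G U ih v w hv hw hvw h
  push Not at h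
  refine MAIN_key hPOS hRCN hFM2 hSIZ hWEX hST1 G U ih w v hw hv hvw.symm ?_
  obtain ⟨m, hm⟩ : ∃ m : ℝ, m = (U.card : ℝ) - 1 := ⟨_, rfl⟩
  rw [← hm] at h ⊢
  have hcard : 2 ≤ U.card := by
    have h1 : ({v, w} : Finset V) ⊆ U := by
      intro x hx
      rw [Finset.mem_insert, Finset.mem_singleton] at hx
      rcases hx with rfl | rfl
      · exact hv
      · exact hw
    have h2 := Finset.card_le_card h1
    rwa [Finset.card_pair hvw.ne] at h2
  have hm1 : 1 ≤ m := by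
    have : (2 : ℝ) ≤ U.card := by exact_mod_cast hcard
    rw [hm]
    linarith
  have htwo := hTWO V G U v w (fun k : ℕ => W (k : ℝ)) hv hw hvw (MAIN_mono hWEX)
    (MAIN_om hWEX G U ih w hw)
  refine htwo.trans ?_
  obtain ⟨r1, -, -⟩ := hRCN V G U v hv
  obtain ⟨R, hR⟩ : ∃ R, R = U.erase v := ⟨_, rfl⟩
  rw [← hR] at h r1 ⊢
  obtain ⟨s, hs⟩ : ∃ s, s = st G {v} R := ⟨_, rfl⟩
  have hNn : ∀ S, 0 ≤ N G (R \ S) := fun S => zero_le_one.trans (hPOS V G (R \ S)).1
  have m0 : ∑ S ∈ s, N G (R \ S) = N G U := by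
    rw [r1, Mk, ← hs]
    refine Finset.sum_congr rfl fun S _ => ?_
    simp
  have m1 : ∑ S ∈ s, (S.card : ℝ) * N G (R \ S) = Mk G {v} R 1 := by
    rw [Mk, ← hs]
    refine Finset.sum_congr rfl fun S _ => ?_
    simp
  obtain ⟨p, hp⟩ : ∃ p : Finset V → ℝ, p = fun S => N G (R \ S) / N G U := ⟨_, rfl⟩
  have hpsum : ∀ f : Finset V → ℝ, ∑ S ∈ s, p S * f S = (∑ S ∈ s, f S * N G (R \ S)) / N G U := by
    intro f
    rw [Finset.sum_div]
    refine Finset.sum_congr rfl fun S _ => ?_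
    rw [hp]
    ring
  have hsz : ∀ S ∈ s, (S.card : ℝ) ≤ m - 1 ∧ ((U.card - 2 - S.card : ℕ) : ℝ) = m - 1 - S.card := by
    intro S hS
    rw [hs, hR] at hS
    obtain ⟨h1, -, -⟩ := hSIZ V G U v w hv hw hvw S hS
    have h4 : (S.card : ℝ) + 2 ≤ U.card := by exact_mod_cast h1
    refine ⟨by rw [hm]; linarith, ?_⟩
    rw [Nat.cast_sub (by omega), Nat.cast_sub (by omega), hm]
    push_cast
    ring
  have key := hST2 (Finset V) s p (fun S => (S.card : ℝ)) m hm1
    (fun S _ => by rw [hp]; exact div_nonneg (hNn S) hN.le)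
    (by
      have := hpsum (fun _ => 1)
      simp only [mul_one, one_mul] at this
      rw [this, m0, div_self hN.ne'])
    (fun S hS => ⟨Nat.cast_nonneg _, (hsz S hS).1⟩)
    (by
      rw [hpsum (fun S => (S.card : ℝ)), m1, lt_div_iff₀ hN]
      exact h)
  rw [hpsum (fun S => W (m - 1 - S.card)), div_le_iff₀ hN] at key
  rw [← hs]
  refine le_trans (le_of_eq ?_) key
  refine Finset.sum_congr rfl fun S hS => ?_
  rw [(hsz S hS).2]

end Pool.Agent.helper34.AC
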