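import Pool.Agent.helper34.AC.Spec4

/-! ac: DYL: a vertex with `d` neighbours. -/

set_option autoImplicit false

open Filter Topology

namespace Pool.Agent.helper34.AC

theorem DYL_sq (hBSZ : BSZ_stmt) (hFM2 : FM2_stmt) (hRCN : RCN_stmt)
    {V : Type} [DecidableEq V] (G : SimpleGraph V) (U : Finset V) (o : ℕ → ℝ) (m : ℕ) (w : ℝ)
    (hU : U.card = m + 1) (hmono : Monotone o) (hom : ∀ R : Finset V, Om G R o) (hw : o m = w)
    (hw1 : 1 ≤ w) (y : V) (hy : y ∈ U) :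
    ∑ P ∈ col G U, (cs P y : ℝ) ^ 2 ≤ 2 * (1 + w) ^ 2 * N G U := by
  obtain ⟨-, -, h3⟩ := hBSZ V G U y hy
  rw [h3]
  obtain ⟨r1, -, -⟩ := hRCN V G U y hy
  have f0 := hFM2 V G {y} (U.erase y) o 0 hmono (hom _)
  have f1 := hFM2 V G {y} (U.erase y) o 1 hmono (hom _)
  have hc : (U.erase y).card = m := by
    rw [Finset.card_erase_of_mem hy, hU]
    rfl
  rw [hc, hw, zero_add, ← r1] at f0
  rw [hc, hw] at f1
  have hN : 0 ≤ N G U := by unfold N; exact Nat.cast_nonneg _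
  have g1 : w * Mk G {y} (U.erase y) 1 ≤ w * (w * N G U) :=
    mul_le_mul_of_nonneg_left f0 (by linarith)
  have g2 : Mk G {y} (U.erase y) 2 ≤ w * (w * N G U) := f1.trans g1
  nlinarith [mul_nonneg (by linarith : (0 : ℝ) ≤ w) hN]

theorem DYL_same (hBSZ : BSZ_stmt) (hFM2 : FM2_stmt) (hRCN : RCN_stmt) (hSAM : SAM_stmt)
    {V : Type} [DecidableEq V] (G : SimpleGraph V) (U : Finset V) (o : ℕ → ℝ) (m : ℕ) (w L : ℝ)
    (hU : U.card = m + 1) (hmono : Monotone o) (hom : ∀ R : Finset V, Om G R o) (hw : o m = w)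
    (hw1 : 1 ≤ w) (hL : 0 < L) (y z : V) (hy : y ∈ U) (hz : z ∈ U) (hyz : y ≠ z)
    (hzer : N G (U.erase z) ≤ 4 / w * N G U) :
    ∑ P ∈ col G U, (((if ∃ B ∈ P, y ∈ B ∧ z ∈ B then cs P y else 0 : ℕ)) : ℝ) ≤
      ((1 + w) / L + 4 * L) * N G U := by
  have hN : 0 ≤ N G U := by unfold N; exact Nat.cast_nonneg _
  have h1 := DYL_sq hBSZ hFM2 hRCN G U o m w hU hmono hom hw hw1 y hy
  have h2 := (hSAM V G U y z hy hz hyz).1
  obtain ⟨l, hl⟩ : ∃ l : ℝ, l = L * (1 + w) := ⟨_, rfl⟩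
  have hl0 : 0 < l := by rw [hl]; positivity
  have h3 : ∀ P ∈ col G U, (((if ∃ B ∈ P, y ∈ B ∧ z ∈ B then cs P y else 0 : ℕ)) : ℝ) ≤
      1 / (2 * l) * (cs P y : ℝ) ^ 2 + l / 2 * (if ∃ B ∈ P, y ∈ B ∧ z ∈ B then (1 : ℝ) else 0) := by
    intro P _
    split_ifs with h
    · have h4 : 0 ≤ ((cs P y : ℝ) - l) ^ 2 := sq_nonneg _
      have h5 : 1 / (2 * l) * (cs P y : ℝ) ^ 2 + l / 2 * 1 - cs P y =
          ((cs P y : ℝ) - l) ^ 2 / (2 * l) := by
        field_simp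
        ring
      have h6 : 0 ≤ ((cs P y : ℝ) - l) ^ 2 / (2 * l) := by positivity
      linarith
    · simp only [Nat.cast_zero, mul_zero, add_zero]
      positivity
  refine (Finset.sum_le_sum h3).trans ?_
  rw [Finset.sum_add_distrib, ← Finset.mul_sum, ← Finset.mul_sum, Finset.sum_boole]
  have h4 : 1 / (2 * l) * ∑ P ∈ col G U, (cs P y : ℝ) ^ 2 ≤ (1 + w) / L * N G U := by
    calc 1 / (2 * l) * ∑ P ∈ col G U, (cs P y : ℝ) ^ 2
        ≤ 1 / (2 * l) * (2 * (1 + w) ^ 2 * N G U) := mul_le_mul_of_nonneg_left h1 (by positivity)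
      _ = (1 + w) / L * N G U := by
          rw [hl]
          have : 1 + w ≠ 0 := by positivity
          field_simp
  have h5 : l / 2 * (((col G U).filter (fun P => ∃ B ∈ P, y ∈ B ∧ z ∈ B)).card : ℝ) ≤
      4 * L * N G U := by
    calc l / 2 * (((col G U).filter (fun P => ∃ B ∈ P, y ∈ B ∧ z ∈ B)).card : ℝ)
        ≤ l / 2 * (4 / w * N G U) := mul_le_mul_of_nonneg_left (h2.trans hzer) (by positivity)
      _ = 2 * L * ((1 + w) / w) * N G U := by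
          rw [hl]
          ring
      _ ≤ 2 * L * 2 * N G U := by
          have : (1 + w) / w ≤ 2 := by
            rw [div_le_iff₀ (by linarith)]
            linarith
          gcongr
      _ = 4 * L * N G U := by ring
  linarith

theorem DYL_core (hFMV : FMV_stmt) (hBSZ : BSZ_stmt) (hSAM : SAM_stmt) (hDLB : DLB_stmt)
    (hFM2 : FM2_stmt) (hRCN : RCN_stmt)
    {V : Type} [DecidableEq V] (G : SimpleGraph V) (U Y : Finset V) (v : V) (o : ℕ → ℝ)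
    (m d : ℕ) (w L c : ℝ)
    (hU : U.card = m + 1) (hv : v ∈ U) (hY : Y ⊆ U) (hYd : Y.card = d) (hadj : ∀ y ∈ Y, G.Adj v y)
    (hmono : Monotone o) (hom : ∀ R : Finset V, Om G R o) (hw : o m = w)
    (hw1 : 1 ≤ w) (hL : 0 < L) (hc : 0 ≤ c)
    (hlow : ∀ u ∈ U, (w - 1) * N G U ≤ Mk G {u} (U.erase u) 1)
    (hzer : ∀ z ∈ U, N G (U.erase z) ≤ 4 / w * N G U)
    (hslp : ∀ i : ℕ, (i : ℝ) ≤ (1 + w) ^ 2 → o (m - i) ≤ w - c * i) :
    Mk G {v} (U.erase v) 1 ≤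
      (w - c * (d * w - (d : ℝ) ^ 2 * ((1 + w) / L + 4 * L) - 2 * (d : ℝ) ^ 2)) * N G U := by
  have hN : 0 ≤ N G U := by unfold N; exact Nat.cast_nonneg _
  have hfmv := hFMV V G U Y v o hv hY hadj hmono (hom _)
  have hK : 0 < (1 + w) ^ 2 := by positivity
  have h1 : ∀ P ∈ col G U, o (U.card - 1 - DY Y P) ≤
      w - c * ((DY Y P : ℝ) - (DY Y P : ℝ) ^ 2 / (1 + w) ^ 2) := by
    intro P _
    have e1 : U.card - 1 - DY Y P = m - DY Y P := by omega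
    rw [e1]
    rcases le_or_gt (DY Y P : ℝ) ((1 + w) ^ 2) with h | h
    · refine (hslp _ h).trans ?_
      have : 0 ≤ c * ((DY Y P : ℝ) ^ 2 / (1 + w) ^ 2) := by positivity
      linarith
    · have h2 : o (m - DY Y P) ≤ o m := hmono (Nat.sub_le _ _)
      rw [hw] at h2
      have h3 : (DY Y P : ℝ) ≤ (DY Y P : ℝ) ^ 2 / (1 + w) ^ 2 := by
        rw [le_div_iff₀ hK, sq (DY Y P : ℝ)]
        exact mul_le_mul_of_nonneg_left h.le (Nat.cast_nonneg _)
      have h4 : 0 ≤ c * ((DY Y P : ℝ) ^ 2 / (1 + w) ^ 2 - (DY Y P : ℝ)) :=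
        mul_nonneg hc (by linarith)
      linarith
  have h2 : Mk G {v} (U.erase v) 1 ≤ w * N G U - c * (∑ P ∈ col G U, (DY Y P : ℝ) -
      (∑ P ∈ col G U, (DY Y P : ℝ) ^ 2) / (1 + w) ^ 2) := by
    refine hfmv.trans ((Finset.sum_le_sum h1).trans (le_of_eq ?_))
    rw [Finset.sum_sub_distrib, ← Finset.mul_sum, Finset.sum_sub_distrib, Finset.sum_const,
      ← Finset.sum_div, nsmul_eq_mul]
    unfold N
    ring
  -- the second moment
  have h3 : (∑ P ∈ col G U, (DY Y P : ℝ) ^ 2) / (1 + w) ^ 2 ≤ 2 * (d : ℝ) ^ 2 * N G U := by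
    rw [div_le_iff₀ hK]
    calc ∑ P ∈ col G U, (DY Y P : ℝ) ^ 2
        ≤ ∑ P ∈ col G U, (d : ℝ) * ∑ y ∈ Y, (cs P y : ℝ) ^ 2 := by
          refine Finset.sum_le_sum fun P hP => ?_
          have k1 := (hDLB V G U Y P hP hY).1
          have k2 : (DY Y P : ℝ) ≤ ∑ y ∈ Y, (cs P y : ℝ) := by exact_mod_cast k1
          have k3 : (DY Y P : ℝ) ^ 2 ≤ (∑ y ∈ Y, (cs P y : ℝ)) ^ 2 :=
            pow_le_pow_left₀ (Nat.cast_nonneg _) k2 2
          have k4 := sq_sum_le_card_mul_sum_sq (s := Y) (f := fun y => (cs P y : ℝ))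
          rw [hYd] at k4
          exact k3.trans k4
      _ = d * ∑ y ∈ Y, ∑ P ∈ col G U, (cs P y : ℝ) ^ 2 := by
          rw [← Finset.mul_sum, Finset.sum_comm]
      _ ≤ d * ∑ y ∈ Y, 2 * (1 + w) ^ 2 * N G U := by
          refine mul_le_mul_of_nonneg_left (Finset.sum_le_sum fun y hy => ?_) (Nat.cast_nonneg _)
          exact DYL_sq hBSZ hFM2 hRCN G U o m w hU hmono hom hw hw1 y (hY hy)
      _ = 2 * (d : ℝ) ^ 2 * N G U * (1 + w) ^ 2 := by
          rw [Finset.sum_const, hYd, nsmul_eq_mul]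
          ring
  -- the first moment
  have h4 : (d * w - (d : ℝ) ^ 2 * ((1 + w) / L + 4 * L)) * N G U ≤
      ∑ P ∈ col G U, (DY Y P : ℝ) := by
    have k1 : ∀ P ∈ col G U, ∑ y ∈ Y, (cs P y : ℝ) - ∑ y ∈ Y, ∑ z ∈ Y.erase y,
        (((if ∃ B ∈ P, y ∈ B ∧ z ∈ B then cs P y else 0 : ℕ)) : ℝ) ≤ (DY Y P : ℝ) := by
      intro P hP
      have k2 := (hDLB V G U Y P hP hY).2.2
      have k3 : ∑ y ∈ Y, (cs P y : ℝ) ≤ (DY Y P : ℝ) + ∑ y ∈ Y, ∑ z ∈ Y.erase y,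
        (((if ∃ B ∈ P, y ∈ B ∧ z ∈ B then cs P y else 0 : ℕ)) : ℝ) := by exact_mod_cast k2
      linarith
    refine le_trans ?_ (Finset.sum_le_sum k1)
    rw [Finset.sum_sub_distrib]
    have k2 : (d : ℝ) * w * N G U ≤ ∑ P ∈ col G U, ∑ y ∈ Y, (cs P y : ℝ) := by
      rw [Finset.sum_comm]
      calc (d : ℝ) * w * N G U = ∑ y ∈ Y, w * N G U := by
            rw [Finset.sum_const, hYd, nsmul_eq_mul]
            ring
        _ ≤ ∑ y ∈ Y, ∑ P ∈ col G U, (cs P y : ℝ) := by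
            refine Finset.sum_le_sum fun y hy => ?_
            rw [(hBSZ V G U y (hY hy)).2.1]
            have := hlow y (hY hy)
            linarith
    have k3 : ∑ P ∈ col G U, ∑ y ∈ Y, ∑ z ∈ Y.erase y,
        (((if ∃ B ∈ P, y ∈ B ∧ z ∈ B then cs P y else 0 : ℕ)) : ℝ) ≤
        (d : ℝ) ^ 2 * ((1 + w) / L + 4 * L) * N G U := by
      have hq : 0 ≤ ((1 + w) / L + 4 * L) * N G U := by positivity
      calc ∑ P ∈ col G U, ∑ y ∈ Y, ∑ z ∈ Y.erase y,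
            (((if ∃ B ∈ P, y ∈ B ∧ z ∈ B then cs P y else 0 : ℕ)) : ℝ)
          = ∑ y ∈ Y, ∑ z ∈ Y.erase y, ∑ P ∈ col G U,
            (((if ∃ B ∈ P, y ∈ B ∧ z ∈ B then cs P y else 0 : ℕ)) : ℝ) := by
            rw [Finset.sum_comm]
            refine Finset.sum_congr rfl fun y _ => ?_
            rw [Finset.sum_comm]
        _ ≤ ∑ y ∈ Y, ∑ z ∈ Y.erase y, ((1 + w) / L + 4 * L) * N G U := by
            refine Finset.sum_le_sum fun y hy => Finset.sum_le_sum fun z hz => ?_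
            rw [Finset.mem_erase] at hz
            exact DYL_same hBSZ hFM2 hRCN hSAM G U o m w L hU hmono hom hw hw1 hL y z (hY hy)
              (hY hz.2) hz.1.symm (hzer z (hY hz.2))
        _ ≤ ∑ y ∈ Y, ∑ z ∈ Y, ((1 + w) / L + 4 * L) * N G U := by
            refine Finset.sum_le_sum fun y _ => ?_
            exact Finset.sum_le_sum_of_subset_of_nonneg (Finset.erase_subset _ _) fun _ _ _ => hq
        _ = (d : ℝ) ^ 2 * ((1 + w) / L + 4 * L) * N G U := by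
            rw [Finset.sum_const, Finset.sum_const, hYd, nsmul_eq_mul, nsmul_eq_mul]
            ring
    linarith
  refine h2.trans ?_
  have h5 : c * ((d * w - (d : ℝ) ^ 2 * ((1 + w) / L + 4 * L) - 2 * (d : ℝ) ^ 2) * N G U) ≤
      c * (∑ P ∈ col G U, (DY Y P : ℝ) - (∑ P ∈ col G U, (DY Y P : ℝ) ^ 2) / (1 + w) ^ 2) := by
    refine mul_le_mul_of_nonneg_left ?_ hc
    linarith
  linarith

/-- the final numerical inequality -/
theorem DYL_num (d : ℕ) (e e2 w x g L : ℝ) (he : 0 < e) (he1 : e ≤ 1) (he2 : 0 < e2)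
    (hL : L = 12 * ((d : ℝ) + 1) / e) (he2' : e2 = e / (16 * (4 * L + 2) * ((d : ℝ) + 1)))
    (hw : 1 / e2 ≤ w) (hx : 0 < x) (hxw : |x * w - 1| ≤ e2) (hg : 0 < g) :
    (1 - e) * d / g ≤ (1 - e / 4) * x / g *
      (d * w - (d : ℝ) ^ 2 * ((1 + w) / L + 4 * L) - 2 * (d : ℝ) ^ 2) := by
  have hd : (0 : ℝ) ≤ d := Nat.cast_nonneg _
  have hL0 : 0 < L := by rw [hL]; positivity
  have hL12 : 12 ≤ L := by
    rw [hL, le_div_iff₀ he]
    nlinarith
  have hL' : L * e = 12 * ((d : ℝ) + 1) := by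
    rw [hL]
    field_simp
  have he2a : e2 * (16 * (4 * L + 2) * ((d : ℝ) + 1)) = e := by
    rw [he2']
    field_simp
  have he2b : e2 * (16 * (4 * L + 2)) * (d + 1) = e := by rw [← he2a]; ring
  have he28 : e2 ≤ e / 8 := by
    have h1 : e2 * 8 ≤ e2 * (16 * (4 * L + 2) * ((d : ℝ) + 1)) := by
      refine mul_le_mul_of_nonneg_left ?_ he2.le
      nlinarith [mul_nonneg hL0.le hd]
    linarith
  rw [abs_le] at hxw
  have hx2 : x ≤ 2 * e2 := by
    have h1 : x * (1 / e2) ≤ x * w := mul_le_mul_of_nonneg_left hw hx.le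
    have h2 : x * (1 / e2) ≤ 2 := by linarith
    rw [mul_one_div, div_le_iff₀ he2] at h2
    exact h2
  have hx3 : x * (1 + w) ≤ 3 := by
    have : x * (1 + w) = x + x * w := by ring
    linarith
  -- the main estimate of x * Z
  have k1 : (d : ℝ) * (1 - e / 8) ≤ d * (x * w) := mul_le_mul_of_nonneg_left (by linarith) hd
  have k2 : (d : ℝ) ^ 2 * (x * (1 + w) / L) ≤ d * (e / 4) := by
    have h1 : (d : ℝ) ^ 2 * (x * (1 + w) / L) ≤ (d : ℝ) ^ 2 * (3 / L) := by gcongr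
    refine h1.trans ?_
    rw [← mul_div_assoc, div_le_iff₀ hL0]
    have h2 : (d : ℝ) * (e / 4) * L = d * (3 * (d + 1)) := by
      have : (d : ℝ) * (e / 4) * L = d * (L * e / 4) := by ring
      rw [this, hL']
      ring
    rw [h2]
    nlinarith
  have k3 : (d : ℝ) ^ 2 * (x * (4 * L + 2)) ≤ d * (e / 8) := by
    have h1 : x * (4 * L + 2) ≤ 2 * e2 * (4 * L + 2) := by gcongr
    have h2 : (d : ℝ) * (2 * e2 * (4 * L + 2)) ≤ e / 8 := by
      have h3 : (d : ℝ) * (2 * e2 * (4 * L + 2)) ≤ (d + 1) * (2 * e2 * (4 * L + 2)) := by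
        refine mul_le_mul_of_nonneg_right (by linarith) (by positivity)
      have h4 : ((d : ℝ) + 1) * (2 * e2 * (4 * L + 2)) = e / 8 := by
        rw [← he2b]
        ring
      linarith
    calc (d : ℝ) ^ 2 * (x * (4 * L + 2)) ≤ (d : ℝ) ^ 2 * (2 * e2 * (4 * L + 2)) := by gcongr
      _ = d * (d * (2 * e2 * (4 * L + 2))) := by ring
      _ ≤ d * (e / 8) := mul_le_mul_of_nonneg_left h2 hd
  have k4 : (d : ℝ) * (1 - e / 2) ≤
      x * (d * w - (d : ℝ) ^ 2 * ((1 + w) / L + 4 * L) - 2 * (d : ℝ) ^ 2) := by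
    have : x * (d * w - (d : ℝ) ^ 2 * ((1 + w) / L + 4 * L) - 2 * (d : ℝ) ^ 2) =
        d * (x * w) - (d : ℝ) ^ 2 * (x * (1 + w) / L) - (d : ℝ) ^ 2 * (x * (4 * L + 2)) := by ring
    rw [this]
    linarith
  have k5 : (1 - e) * d ≤ (1 - e / 4) * (x * (d * w - (d : ℝ) ^ 2 * ((1 + w) / L + 4 * L) -
      2 * (d : ℝ) ^ 2)) := by
    refine le_trans ?_ (mul_le_mul_of_nonneg_left k4 (by linarith))
    have : (1 - e / 4) * (d * (1 - e / 2)) - (1 - e) * d = d * (e / 4 + e ^ 2 / 8) := by ring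
    nlinarith [mul_nonneg hd (by positivity : 0 ≤ e / 4 + e ^ 2 / 8)]
  calc (1 - e) * d / g ≤ (1 - e / 4) * (x * (d * w - (d : ℝ) ^ 2 * ((1 + w) / L + 4 * L) -
      2 * (d : ℝ) ^ 2)) / g := by gcongr
    _ = _ := by ring

theorem DYL (hFMV : FMV_stmt) (hOMS : OMS_stmt) (hBSZ : BSZ_stmt) (hSAM : SAM_stmt)
    (hZER : ZER_stmt) (hDLB : DLB_stmt) (hFM2 : FM2_stmt) (hRCN : RCN_stmt) (hSLP : SLP_stmt)
    (hASY : ASY_stmt) (hOMF : OMF_stmt) : DYL_stmt := by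
  intro d e₀ he₀
  obtain ⟨e, he⟩ : ∃ e : ℝ, e = min e₀ 1 := ⟨_, rfl⟩
  have he0 : 0 < e := by rw [he]; exact lt_min he₀ one_pos
  have he1 : e ≤ 1 := by rw [he]; exact min_le_right _ _
  have hee : e ≤ e₀ := by rw [he]; exact min_le_left _ _
  obtain ⟨L, hL⟩ : ∃ L : ℝ, L = 12 * ((d : ℝ) + 1) / e := ⟨_, rfl⟩
  have hL0 : 0 < L := by rw [hL]; positivity
  obtain ⟨e2, he2⟩ : ∃ e2 : ℝ, e2 = e / (16 * (4 * L + 2) * ((d : ℝ) + 1)) := ⟨_, rfl⟩
  have he20 : 0 < e2 := by rw [he2]; positivity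
  have he21 : e2 ≤ 1 := by
    rw [he2, div_le_one (by positivity)]
    have hd : (0 : ℝ) ≤ d := Nat.cast_nonneg _
    nlinarith [mul_nonneg hL0.le hd]
  obtain ⟨o, hmono, ho0, ⟨Mo, hMo⟩, hoN⟩ := hOMS
  obtain ⟨Mz, hMz⟩ := hZER
  obtain ⟨Ms, hMs⟩ := hSLP (e / 4) (by positivity)
  obtain ⟨Ma, hMa⟩ := hASY e2 he20
  obtain ⟨Mg, hMg⟩ := Filter.eventually_atTop.1 (hOMF.2.2.2.1.eventually_gt_atTop 0)
  refine ⟨Mo + Mo + Mz + Ms + Ma + Mg, ?_⟩
  intro m hm V _ G U Y v hU hv hY hYd hadj hlow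
  have hg : 0 < gb m := hMg m (by omega)
  obtain ⟨a1, -, -, -, a5, -, -, a8⟩ := hMa m (by omega)
  have hom : ∀ R : Finset V, Om G R o := fun R T _ => hoN V G T
  have hw : o m = om m := hMo m (by omega)
  have hw1 : 1 ≤ om m := by
    refine le_trans ?_ a5
    rw [le_div_iff₀ he20]
    linarith
  have hzer : ∀ z ∈ U, N G (U.erase z) ≤ 4 / om m * N G U := by
    intro z hz
    refine hMz m (by omega) V G U z o hU hz hmono (hom _) ?_ (hlow z hz)
    rw [hw]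
    have : 0 < 1 / gb m := by positivity
    linarith
  have hslp : ∀ i : ℕ, (i : ℝ) ≤ (1 + om m) ^ 2 →
      o (m - i) ≤ om m - (1 - e / 4) * xx m / gb m * i := by
    intro i hi
    obtain ⟨s1, s2, -⟩ := hMs m (by omega) i hi
    rw [hMo (m - i) (by omega)]
    have : (1 - e / 4) * xx m / gb m * i = (1 - e / 4) * i * xx m / gb m := by ring
    rw [this]
    linarith
  have hc : 0 ≤ (1 - e / 4) * xx m / gb m := by
    have : 0 ≤ 1 - e / 4 := by linarith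
    positivity
  have key := DYL_core hFMV hBSZ hSAM hDLB hFM2 hRCN G U Y v o m d (om m) L
    ((1 - e / 4) * xx m / gb m) hU hv hY hYd hadj hmono hom hw hw1 hL0 hc hlow hzer hslp
  refine key.trans ?_
  have hN : 0 ≤ N G U := by unfold N; exact Nat.cast_nonneg _
  refine mul_le_mul_of_nonneg_right ?_ hN
  have hnum := DYL_num d e e2 (om m) (xx m) (gb m) L he0 he1 he20 hL he2 a5 a8 a1 hg
  have h1 : (1 - e₀) * d / gb m ≤ (1 - e) * d / gb m := by gcongr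
  linarith

end Pool.Agent.helper34.AC
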